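import Pool.Agent.helper11.VN.Spec3b

/-! Row TLN of project VN (MP_07c750_an): tails of the random series. -/

set_option autoImplicit false

open scoped MatrixGroups ContDiff Topology UpperHalfPlane ComplexConjugate ENNReal
open UpperHalfPlane MeasureTheory Filter Set

namespace Pool.Agent.VN

open Pool.Agent.RS Pool.Agent.VQ
open Pool.Agent.RPQ (CEig mean VV IsOp IsMul OProj wrd PJ nst mks MO Net Cl CkB PN upd Eqd)

theorem TLN_exp (θ : ℝ) (hθ : 0 < θ) : ∃ M : ℝ, 0 ≤ M ∧ ∀ k : ℕ, Real.exp (6 * (Real.log k) ^ 2) ≤ M * (2 : ℝ) ^ (θ * k) := by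
  have hl2 : 0 < Real.log 2 := Real.log_pos (by norm_num)
  have h1 : (fun x : ℝ => Real.log x ^ 2) =o[atTop] (id : ℝ → ℝ) := Real.isLittleO_pow_log_id_atTop
  have h2 := h1.def (show 0 < θ * Real.log 2 / 6 by positivity)
  obtain ⟨k1, hk1⟩ : ∃ k1 : ℕ, ∀ k : ℕ, k1 ≤ k → ‖Real.log (k : ℝ) ^ 2‖ ≤ θ * Real.log 2 / 6 * ‖(k : ℝ)‖ :=
    eventually_atTop.1 (tendsto_natCast_atTop_atTop.eventually h2)
  refine ⟨1 + ∑ k ∈ Finset.range k1, Real.exp (6 * (Real.log (k : ℝ)) ^ 2), by positivity, fun k => ?_⟩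
  have hs0 : 0 ≤ ∑ k ∈ Finset.range k1, Real.exp (6 * (Real.log (k : ℝ)) ^ 2) :=
    Finset.sum_nonneg fun i _ => (Real.exp_pos _).le
  have h0 : (0 : ℝ) ≤ (2 : ℝ) ^ (θ * k) := Real.rpow_nonneg (by norm_num) _
  rcases lt_or_ge k k1 with h | h
  · have h3 : Real.exp (6 * (Real.log (k : ℝ)) ^ 2) ≤ ∑ k ∈ Finset.range k1, Real.exp (6 * (Real.log (k : ℝ)) ^ 2) :=
      Finset.single_le_sum (f := fun k : ℕ => Real.exp (6 * (Real.log (k : ℝ)) ^ 2)) (fun i _ => (Real.exp_pos _).le)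
        (Finset.mem_range.2 h)
    have h4 : (1 : ℝ) ≤ (2 : ℝ) ^ (θ * k) := Real.one_le_rpow (by norm_num) (by positivity)
    calc Real.exp (6 * (Real.log (k : ℝ)) ^ 2) ≤ (1 + ∑ k ∈ Finset.range k1, Real.exp (6 * (Real.log (k : ℝ)) ^ 2)) * 1 := by
          linarith
      _ ≤ _ := mul_le_mul_of_nonneg_left h4 (by linarith)
  · have h3 := hk1 k h
    rw [Real.norm_of_nonneg (sq_nonneg _), Real.norm_of_nonneg (Nat.cast_nonneg _)] at h3
    have h4 : (2 : ℝ) ^ (θ * k) = Real.exp (Real.log 2 * (θ * k)) := Real.rpow_def_of_pos (by norm_num) _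
    have h5 : Real.exp (6 * (Real.log (k : ℝ)) ^ 2) ≤ (2 : ℝ) ^ (θ * k) := by
      rw [h4]
      refine Real.exp_le_exp.2 ?_
      linarith
    calc Real.exp (6 * (Real.log (k : ℝ)) ^ 2) ≤ 1 * (2 : ℝ) ^ (θ * k) := by linarith
      _ ≤ _ := mul_le_mul_of_nonneg_right (by linarith) h0

theorem TLN_tail (c : ℕ → ℝ) (C' θ : ℝ) (hθ : 0 < θ) (hθ1 : θ < 1) (hs : Summable c) (hc0 : ∀ k, 0 ≤ c k)
    (hc : ∀ k : ℕ, c k ≤ C' * Real.exp (6 * (Real.log k) ^ 2) / 2 ^ k) :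
    ∃ A : ℝ, 0 ≤ A ∧ ∀ N : ℕ, ∑' k, c (k + N) ≤ A * ((2 : ℝ) ^ N) ^ (-(1 - θ)) := by
  obtain ⟨M, hM, hexp⟩ := TLN_exp θ hθ
  have hC' : 0 ≤ C' := by
    have h1 := (hc0 0).trans (hc 0)
    rw [Nat.cast_zero, Real.log_zero] at h1
    norm_num at h1
    exact h1
  set q : ℝ := (2 : ℝ) ^ (-(1 - θ)) with hq
  have hq0 : 0 < q := Real.rpow_pos_of_pos (by norm_num) _
  have hq1 : q < 1 := Real.rpow_lt_one_of_one_lt_of_neg (by norm_num) (by linarith)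
  have hb : ∀ N k : ℕ, c (k + N) ≤ (C' * M * ((2 : ℝ) ^ N) ^ (-(1 - θ))) * q ^ k := by
    intro N k
    have h1 := hc (k + N)
    have h2 := hexp (k + N)
    have e1 : (2 : ℝ) ^ (θ * ((k + N : ℕ) : ℝ)) / 2 ^ (k + N) = ((2 : ℝ) ^ N) ^ (-(1 - θ)) * q ^ k := by
      rw [hq, ← Real.rpow_natCast (2 : ℝ) (k + N), ← Real.rpow_natCast (2 : ℝ) N,
        ← Real.rpow_natCast ((2 : ℝ) ^ (-(1 - θ))) k, ← Real.rpow_mul (by norm_num), ← Real.rpow_mul (by norm_num),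
        ← Real.rpow_sub (by norm_num), ← Real.rpow_add (by norm_num)]
      congr 1
      push_cast
      ring
    calc c (k + N) ≤ C' * Real.exp (6 * (Real.log ((k + N : ℕ) : ℝ)) ^ 2) / 2 ^ (k + N) := h1
      _ ≤ C' * (M * (2 : ℝ) ^ (θ * ((k + N : ℕ) : ℝ))) / 2 ^ (k + N) :=
          div_le_div_of_nonneg_right (mul_le_mul_of_nonneg_left h2 hC') (by positivity)
      _ = C' * M * ((2 : ℝ) ^ (θ * ((k + N : ℕ) : ℝ)) / 2 ^ (k + N)) := by ring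
      _ = _ := by rw [e1]; ring
  refine ⟨C' * M * (1 - q)⁻¹, by
    have : 0 ≤ (1 - q)⁻¹ := inv_nonneg.2 (by linarith)
    positivity, fun N => ?_⟩
  have hs1 : Summable fun k => c (k + N) := (summable_nat_add_iff N).2 hs
  have hs2 : Summable fun k => (C' * M * ((2 : ℝ) ^ N) ^ (-(1 - θ))) * q ^ k :=
    (summable_geometric_of_lt_one hq0.le hq1).mul_left _
  refine (hs1.tsum_le_tsum (hb N) hs2).trans (le_of_eq ?_)
  rw [tsum_mul_left, tsum_geometric_of_lt_one hq0.le hq1]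
  ring

theorem TLN_cd {J : ℕ} (χ : Fin J → ℍ → ℝ) (ξ : Fin J → ℝ) (a : ℝ) (h : ∀ j, QU.CD ∞ (χ j)) :
    QU.CD ∞ (fun z => a * VV χ ξ z) := by
  have e : QU.onC (fun z => a * VV χ ξ z) = fun w => a * ∑ j, ξ j * QU.onC (χ j) w := rfl
  unfold QU.CD
  rw [e]
  exact contDiffOn_const.mul (ContDiffOn.sum fun j _ => contDiffOn_const.mul (h j))

theorem TLN_inv {Γ : Subgroup SL(2, ℝ)} {J : ℕ} (χ : Fin J → ℍ → ℝ) (ξ : Fin J → ℝ) (a : ℝ) (h : ∀ j, QU.Inv Γ (χ j)) :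
    QU.Inv Γ (fun z => a * VV χ ξ z) := by
  refine ⟨continuous_const.mul (continuous_finset_sum _ fun j _ => continuous_const.mul (h j).1), fun γ z => ?_⟩
  have e : VV χ ξ (γ • z) = VV χ ξ z := Finset.sum_congr rfl fun j _ => by rw [(h j).2 γ z]
  show a * VV χ ξ (γ • z) = a * VV χ ξ z
  rw [e]

/-- powers -/
theorem TLN_pow (R x : ℝ) (K : ℕ) (hR : 3 ≤ R) (h : R ≤ 2 ^ (K + 1)) (hx : 0 ≤ x) :
    ((2 : ℝ) ^ K) ^ (-x) ≤ 2 ^ x * R ^ (-x) := by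
  have h1 : R / 2 ≤ (2 : ℝ) ^ K := by
    rw [pow_succ] at h
    linarith
  have h2 : ((2 : ℝ) ^ K) ^ (-x) ≤ (R / 2) ^ (-x) :=
    Real.rpow_le_rpow_of_nonpos (by linarith) h1 (by linarith)
  refine h2.trans (le_of_eq ?_)
  rw [Real.div_rpow (by linarith) (by norm_num), Real.rpow_neg (by norm_num : (0 : ℝ) ≤ 2), div_inv_eq_mul, mul_comm]

theorem TLN_proof (hLIP : RPQ.LIP_stmt) : TLN_stmt := by
  intro Γ κ C0 k0 J p χ f0 hΓ hF
  obtain ⟨c, C', hsum, hc0, hck, hcb⟩ := hF.sum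
  obtain ⟨η, hη⟩ : ∃ η : ℝ, ∑' k, c 0 k = η := ⟨_, rfl⟩
  have hη0 : 0 ≤ η := (tsum_nonneg (hc0 0)).trans hη.le
  -- the levels
  have hχ : ∀ (k : ℕ) (j : Fin (J k)), QU.CD ∞ (χ k j) ∧ QU.Inv Γ (χ k j) := by
    intro k j
    rcases lt_or_ge k k0 with hk | hk
    · exfalso
      have h1 := j.2
      have h2 := hF.zero k hk
      omega
    · exact ⟨(hF.net k hk).smooth j, (hF.net k hk).inv j⟩
  have hcd : ∀ (ζ : ℕ × ℕ → ℝ) (k : ℕ), QU.CD ∞ (lN χ ζ k) := fun ζ k => TLN_cd _ _ _ fun j => (hχ k j).1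
  have hinv : ∀ (ζ : ℕ × ℕ → ℝ) (k : ℕ), QU.Inv Γ (lN χ ζ k) := fun ζ k => TLN_inv _ _ _ fun j => (hχ k j).2
  have hbd : ∀ (ζ : ℕ × ℕ → ℝ), (∀ q, |ζ q| ≤ 1) → ∀ k z, |lN χ ζ k z| ≤ c 0 k := fun ζ hζ k =>
    (hLIP _ _ (hcd ζ k)).1 (hck 0 k ζ hζ)
  have hlip : ∀ (ζ : ℕ × ℕ → ℝ), (∀ q, |ζ q| ≤ 1) → ∀ k z w, |lN χ ζ k z - lN χ ζ k w| ≤ c 1 k * dist z w := fun ζ hζ k =>
    (hLIP _ _ (hcd ζ k)).2 (hck 1 k ζ hζ)
  obtain ⟨A0, hA0, ht0⟩ := TLN_tail (c 0) C' (1 / 400) (by norm_num) (by norm_num) (hsum 0) (hc0 0) (hcb 0 (by norm_num))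
  obtain ⟨A1, hA1, ht1⟩ := TLN_tail (c 1) C' (1 / 400) (by norm_num) (by norm_num) (hsum 1) (hc0 1) (hcb 1 le_rfl)
  obtain ⟨A2, hA2, ht2⟩ := TLN_tail (c 0) C' (1 / 8) (by norm_num) (by norm_num) (hsum 0) (hc0 0) (hcb 0 (by norm_num))
  -- large R
  have hlarge : ∀ a x : ℝ, 0 < x → ∀ᶠ R : ℝ in atTop, a ≤ R ^ x := fun a x hx =>
    (tendsto_rpow_atTop hx).eventually (eventually_ge_atTop a)
  obtain ⟨R0, hR0⟩ := eventually_atTop.1 (((hlarge (2 * A0) (1 / 400) (by norm_num)).and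
    (hlarge (2 * A1) (1 / 400) (by norm_num))).and ((hlarge (32 * A2) (1 / 2) (by norm_num)).and
    (hlarge (2 * η) 7 (by norm_num))))
  refine ⟨max 3 R0, le_max_left _ _, fun R K hR hK1 hK2 => ?_⟩
  have hR3 : 3 ≤ R := (le_max_left _ _).trans hR
  have hRp : 0 < R := by linarith
  obtain ⟨⟨g0, g1⟩, g2, g3⟩ := hR0 R ((le_max_right _ _).trans hR)
  -- finite sums
  have hfin : ∀ n ≤ 1, ∑ k ∈ Finset.Ioc K (4 * K), c n k ≤ ∑' k, c n (k + K) := by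
    intro n _
    have hs : Summable fun k => c n (k + K) := (summable_nat_add_iff K).2 (hsum n)
    have h1 : ∑ k ∈ Finset.Ioc K (4 * K), c n k ≤ ∑ k ∈ Finset.range (3 * K + 1), c n (k + K) := by
      have h2 : Finset.Ioc K (4 * K) ⊆ (Finset.range (3 * K + 1)).map (addRightEmbedding K) := by
        intro k hk
        rw [Finset.mem_Ioc] at hk
        rw [Finset.mem_map]
        refine ⟨k - K, Finset.mem_range.2 (by omega), ?_⟩
        show k - K + K = k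
        omega
      refine (Finset.sum_le_sum_of_subset_of_nonneg h2 fun i _ _ => hc0 n i).trans (le_of_eq ?_)
      rw [Finset.sum_map]
      rfl
    exact h1.trans (hs.sum_le_tsum _ fun i _ => hc0 n _)
  have hmain : ∀ A : ℝ, 0 ≤ A → 2 * A ≤ R ^ (1 / 400 : ℝ) → A * ((2 : ℝ) ^ K) ^ (-(1 - 1 / 400 : ℝ)) ≤ R ^ (1 / 200 : ℝ) / R := by
    intro A hA hA2
    have h1 := TLN_pow R (1 - 1 / 400) K hR3 hK2 (by norm_num)
    have h2 : (2 : ℝ) ^ (1 - 1 / 400 : ℝ) ≤ 2 := by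
      calc (2 : ℝ) ^ (1 - 1 / 400 : ℝ) ≤ (2 : ℝ) ^ (1 : ℝ) := Real.rpow_le_rpow_of_exponent_le (by norm_num) (by norm_num)
        _ = 2 := Real.rpow_one 2
    have h3 : 0 ≤ R ^ (-(1 - 1 / 400 : ℝ)) := Real.rpow_nonneg hRp.le _
    calc A * ((2 : ℝ) ^ K) ^ (-(1 - 1 / 400 : ℝ)) ≤ A * (2 ^ (1 - 1 / 400 : ℝ) * R ^ (-(1 - 1 / 400 : ℝ))) :=
          mul_le_mul_of_nonneg_left h1 hA
      _ ≤ A * (2 * R ^ (-(1 - 1 / 400 : ℝ))) := mul_le_mul_of_nonneg_left (mul_le_mul_of_nonneg_right h2 h3) hA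
      _ = 2 * A * R ^ (-(1 - 1 / 400 : ℝ)) := by ring
      _ ≤ R ^ (1 / 400 : ℝ) * R ^ (-(1 - 1 / 400 : ℝ)) := mul_le_mul_of_nonneg_right hA2 h3
      _ = R ^ (1 / 200 : ℝ) / R := by
          rw [← Real.rpow_add hRp, ← Real.rpow_sub_one hRp.ne']
          congr 1
          norm_num
  refine ⟨fun v hv => ⟨?_, ?_, ?_⟩, ?_⟩
  · refine ⟨continuous_finset_sum _ fun k _ => (hinv v k).1, fun γ z => ?_⟩
    exact Finset.sum_congr rfl fun k _ => (hinv v k).2 γ z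
  · intro z
    unfold wN
    calc |∑ k ∈ Finset.Ioc K (4 * K), lN χ v k z| ≤ ∑ k ∈ Finset.Ioc K (4 * K), |lN χ v k z| := Finset.abs_sum_le_sum_abs _ _
      _ ≤ ∑ k ∈ Finset.Ioc K (4 * K), c 0 k := Finset.sum_le_sum fun k _ => hbd v hv k z
      _ ≤ ∑' k, c 0 (k + K) := hfin 0 (by norm_num)
      _ ≤ A0 * ((2 : ℝ) ^ K) ^ (-(1 - 1 / 400 : ℝ)) := ht0 K
      _ ≤ _ := hmain A0 hA0 g0
  · intro z w
    unfold wN
    rw [← Finset.sum_sub_distrib]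
    calc |∑ k ∈ Finset.Ioc K (4 * K), (lN χ v k z - lN χ v k w)| ≤ ∑ k ∈ Finset.Ioc K (4 * K), |lN χ v k z - lN χ v k w| :=
          Finset.abs_sum_le_sum_abs _ _
      _ ≤ ∑ k ∈ Finset.Ioc K (4 * K), c 1 k * dist z w := Finset.sum_le_sum fun k _ => hlip v hv k z w
      _ = (∑ k ∈ Finset.Ioc K (4 * K), c 1 k) * dist z w := (Finset.sum_mul _ _ _).symm
      _ ≤ (R ^ (1 / 200 : ℝ) / R) * dist z w :=
          mul_le_mul_of_nonneg_right (((hfin 1 le_rfl).trans (ht1 K)).trans (hmain A1 hA1 g1)) dist_nonneg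
  · intro ζ v hζ hv hζv z
    have hm0 : 0 < R ^ (-10 : ℝ) := Real.rpow_pos_of_pos hRp _
    -- one level
    have hone : ∀ k : ℕ, k ≤ 4 * K → k ≠ K → |lN χ ζ k z - lN χ v k z| ≤ R ^ (-10 : ℝ) * c 0 k := by
      intro k hk1 hk2
      classical
      obtain ⟨u, hu⟩ : ∃ u : ℕ × ℕ → ℝ, u = fun q => if q.1 = k ∧ q.2 < J q.1 then (ζ q - v q) / R ^ (-10 : ℝ) else 0 := ⟨_, rfl⟩
      have hu1 : ∀ q, |u q| ≤ 1 := by
        intro q
        rw [hu]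
        by_cases hq : q.1 = k ∧ q.2 < J q.1
        · simp only [if_pos hq]
          rw [abs_div, abs_of_pos hm0, div_le_one hm0, abs_sub_comm]
          exact hζv q (by omega) (by omega) hq.2
        · simp only [if_neg hq]
          norm_num
      have hu2 : lN χ ζ k z - lN χ v k z = R ^ (-10 : ℝ) * lN χ u k z := by
        unfold lN VV
        rw [← mul_sub, ← Finset.sum_sub_distrib, ← mul_assoc, mul_comm (R ^ (-10 : ℝ)), mul_assoc]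
        congr 1
        rw [Finset.mul_sum]
        refine Finset.sum_congr rfl fun j _ => ?_
        have h1 : u (k, (j : ℕ)) = (ζ (k, (j : ℕ)) - v (k, (j : ℕ))) / R ^ (-10 : ℝ) := by
          rw [hu]
          exact if_pos ⟨rfl, j.2⟩
        show ζ (k, (j : ℕ)) * χ k j z - v (k, (j : ℕ)) * χ k j z = R ^ (-10 : ℝ) * (u (k, (j : ℕ)) * χ k j z)
        rw [h1, ← mul_assoc, mul_div_cancel₀ _ hm0.ne', ← sub_mul]
      rw [hu2, abs_mul, abs_of_pos hm0]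
      exact mul_le_mul_of_nonneg_left (hbd u hu1 k z) hm0.le
    have hsl : Summable fun k => lN χ ζ k z := (hsum 0).of_norm_bounded (fun k => hbd ζ hζ k z)
    have hsplit : rN χ ζ z = (∑ k ∈ Finset.range K, lN χ ζ k z + lN χ ζ K z + ∑ k ∈ Finset.Ioc K (4 * K), lN χ ζ k z) +
        ∑' k, lN χ ζ (k + (4 * K + 1)) z := by
      unfold rN
      rw [← hsl.sum_add_tsum_nat_add (4 * K + 1)]
      congr 1
      rw [← Finset.sum_range_succ, Finset.range_eq_Ico, Finset.range_eq_Ico]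
      have e : Finset.Ioc K (4 * K) = Finset.Ico (K + 1) (4 * K + 1) := by
        ext k
        rw [Finset.mem_Ioc, Finset.mem_Ico]
        omega
      rw [e]
      exact (Finset.sum_Ico_consecutive _ (by omega) (by omega)).symm
    have hdiff : (f0 z + rN χ ζ z) - (bN χ f0 K v z + (wN χ K v z + aN K * VV (χ K) (fun j => ζ (K, (j : ℕ))) z)) =
        ∑ k ∈ Finset.range K, (lN χ ζ k z - lN χ v k z) + ∑ k ∈ Finset.Ioc K (4 * K), (lN χ ζ k z - lN χ v k z) +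
          ∑' k, lN χ ζ (k + (4 * K + 1)) z := by
      have e : aN K * VV (χ K) (fun j => ζ (K, (j : ℕ))) z = lN χ ζ K z := rfl
      rw [e, hsplit, Finset.sum_sub_distrib, Finset.sum_sub_distrib]
      unfold bN wN
      ring
    rw [hdiff]
    have hp1 : |∑ k ∈ Finset.range K, (lN χ ζ k z - lN χ v k z)| ≤ R ^ (-10 : ℝ) * ∑ k ∈ Finset.range K, c 0 k := by
      rw [Finset.mul_sum]
      refine (Finset.abs_sum_le_sum_abs _ _).trans (Finset.sum_le_sum fun k hk => ?_)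
      rw [Finset.mem_range] at hk
      exact hone k (by omega) (by omega)
    have hp2 : |∑ k ∈ Finset.Ioc K (4 * K), (lN χ ζ k z - lN χ v k z)| ≤ R ^ (-10 : ℝ) * ∑ k ∈ Finset.Ioc K (4 * K), c 0 k := by
      rw [Finset.mul_sum]
      refine (Finset.abs_sum_le_sum_abs _ _).trans (Finset.sum_le_sum fun k hk => ?_)
      rw [Finset.mem_Ioc] at hk
      exact hone k (by omega) (by omega)
    have hp12 : ∑ k ∈ Finset.range K, c 0 k + ∑ k ∈ Finset.Ioc K (4 * K), c 0 k ≤ η := by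
      have hd : Disjoint (Finset.range K) (Finset.Ioc K (4 * K)) := by
        rw [Finset.disjoint_left]
        intro k h1 h2
        rw [Finset.mem_range] at h1
        rw [Finset.mem_Ioc] at h2
        omega
      rw [← Finset.sum_union hd]
      exact ((hsum 0).sum_le_tsum _ fun i _ => hc0 0 i).trans hη.le
    have hs4 : Summable fun k => c 0 (k + (4 * K + 1)) := (summable_nat_add_iff (4 * K + 1)).2 (hsum 0)
    have hp3 : |∑' k, lN χ ζ (k + (4 * K + 1)) z| ≤ ∑' k, c 0 (k + (4 * K + 1)) := by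
      have h1 : ‖∑' k, lN χ ζ (k + (4 * K + 1)) z‖ ≤ ∑' k, c 0 (k + (4 * K + 1)) :=
        tsum_of_norm_bounded (f := fun k => lN χ ζ (k + (4 * K + 1)) z) hs4.hasSum
          (fun k => hbd ζ hζ (k + (4 * K + 1)) z)
      exact h1
    have hp4 : ∑' k, c 0 (k + (4 * K + 1)) ≤ 16 * A2 * R ^ (-(7 / 2) : ℝ) := by
      refine (ht2 (4 * K + 1)).trans ?_
      have e1 : ((2 : ℝ) ^ (4 * K + 1)) ^ (-(1 - 1 / 8 : ℝ)) ≤ ((2 : ℝ) ^ K) ^ (-(7 / 2) : ℝ) := by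
        have e2 : ((2 : ℝ) ^ K) ^ (-(7 / 2) : ℝ) = ((2 : ℝ) ^ (4 * K)) ^ (-(1 - 1 / 8 : ℝ)) := by
          rw [mul_comm 4 K, pow_mul, ← Real.rpow_natCast ((2 : ℝ) ^ K) 4, ← Real.rpow_mul (by positivity)]
          congr 1
          norm_num
        rw [e2]
        refine Real.rpow_le_rpow_of_nonpos (by positivity) ?_ (by norm_num)
        exact pow_le_pow_right₀ (by norm_num) (by omega)
      have e3 := TLN_pow R (7 / 2) K hR3 hK2 (by norm_num)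
      have e4 : (2 : ℝ) ^ (7 / 2 : ℝ) ≤ 16 := by
        calc (2 : ℝ) ^ (7 / 2 : ℝ) ≤ (2 : ℝ) ^ (4 : ℝ) := Real.rpow_le_rpow_of_exponent_le (by norm_num) (by norm_num)
          _ = 16 := by norm_num
      have e5 : 0 ≤ R ^ (-(7 / 2) : ℝ) := Real.rpow_nonneg hRp.le _
      calc A2 * ((2 : ℝ) ^ (4 * K + 1)) ^ (-(1 - 1 / 8 : ℝ)) ≤ A2 * ((2 : ℝ) ^ K) ^ (-(7 / 2) : ℝ) :=
            mul_le_mul_of_nonneg_left e1 hA2
        _ ≤ A2 * (2 ^ (7 / 2 : ℝ) * R ^ (-(7 / 2) : ℝ)) := mul_le_mul_of_nonneg_left e3 hA2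
        _ ≤ A2 * (16 * R ^ (-(7 / 2) : ℝ)) := mul_le_mul_of_nonneg_left (mul_le_mul_of_nonneg_right e4 e5) hA2
        _ = 16 * A2 * R ^ (-(7 / 2) : ℝ) := by ring
    have hR3p : 0 < R ^ (-3 : ℝ) := Real.rpow_pos_of_pos hRp _
    have hp5 : 2 * (16 * A2 * R ^ (-(7 / 2) : ℝ)) ≤ R ^ (-3 : ℝ) := by
      have e5 : 0 ≤ R ^ (-(7 / 2) : ℝ) := Real.rpow_nonneg hRp.le _
      calc 2 * (16 * A2 * R ^ (-(7 / 2) : ℝ)) = 32 * A2 * R ^ (-(7 / 2) : ℝ) := by ring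
        _ ≤ R ^ (1 / 2 : ℝ) * R ^ (-(7 / 2) : ℝ) := mul_le_mul_of_nonneg_right g2 e5
        _ = R ^ (-3 : ℝ) := by
            rw [← Real.rpow_add hRp]
            congr 1
            norm_num
    have hp6 : 2 * (R ^ (-10 : ℝ) * η) ≤ R ^ (-3 : ℝ) := by
      calc 2 * (R ^ (-10 : ℝ) * η) = 2 * η * R ^ (-10 : ℝ) := by ring
        _ ≤ R ^ (7 : ℝ) * R ^ (-10 : ℝ) := mul_le_mul_of_nonneg_right g3 hm0.le
        _ = R ^ (-3 : ℝ) := by
            rw [← Real.rpow_add hRp]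
            congr 1
            norm_num
    have hp7 : R ^ (-10 : ℝ) * (∑ k ∈ Finset.range K, c 0 k + ∑ k ∈ Finset.Ioc K (4 * K), c 0 k) ≤ R ^ (-10 : ℝ) * η :=
      mul_le_mul_of_nonneg_left hp12 hm0.le
    rw [mul_add] at hp7
    have h1 := abs_add_le (∑ k ∈ Finset.range K, (lN χ ζ k z - lN χ v k z) + ∑ k ∈ Finset.Ioc K (4 * K), (lN χ ζ k z - lN χ v k z))
      (∑' k, lN χ ζ (k + (4 * K + 1)) z)
    have h2 := abs_add_le (∑ k ∈ Finset.range K, (lN χ ζ k z - lN χ v k z)) (∑ k ∈ Finset.Ioc K (4 * K), (lN χ ζ k z - lN χ v k z))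
    linarith

end Pool.Agent.VN
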