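import Pool.Agent.helper74.VN.SpecC
import Pool.Agent.helper39.VQ.VLE

/-!
# vn:NLE (MP_07c750_an): beams are localised in energy (class of all negatively curved surfaces)
-/

set_option autoImplicit false

open scoped MatrixGroups ContDiff Topology UpperHalfPlane ComplexConjugate ENNReal
open UpperHalfPlane MeasureTheory Filter Set

namespace Pool.Agent.VN

open Pool.Agent.RS Pool.Agent.VQ

noncomputable section

/-- the bracket is small -/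
theorem NLE_br {ρ u u0 E c x : ℝ} (hρ : ρ ^ 2 = u0 + 2 * E) (hc : 1 ≤ c) (hρ1 : 0 ≤ ρ) (hρ2 : ρ ≤ c) (hx0 : 0 ≤ x) (hx : x ≤ 1)
    (hu : |u - u0| ≤ c * x) : |(1 - x ^ 2 / 4) ^ 2 * ρ ^ 2 - (u + 2 * E)| ≤ 2 * c ^ 2 * x := by
  have h2 := abs_le.1 hu
  have h3 : ρ ^ 2 ≤ c ^ 2 := pow_le_pow_left₀ hρ1 hρ2 2
  have h3' : 0 ≤ ρ ^ 2 := sq_nonneg _
  have h5 : 0 ≤ x ^ 2 := sq_nonneg _
  have h4 : x ^ 2 ≤ x := by nlinarith
  have h6 : (1 - x ^ 2 / 4) ^ 2 * ρ ^ 2 - (u + 2 * E) = -((x ^ 2 / 2 - x ^ 4 / 16) * ρ ^ 2) - (u - u0) := by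
    rw [hρ]; ring
  have h7 : 0 ≤ x ^ 2 / 2 - x ^ 4 / 16 := by nlinarith
  have h8 : x ^ 2 / 2 - x ^ 4 / 16 ≤ x := by nlinarith [pow_nonneg hx0 4]
  have h9 : 0 ≤ (x ^ 2 / 2 - x ^ 4 / 16) * ρ ^ 2 := mul_nonneg h7 h3'
  have h10 : (x ^ 2 / 2 - x ^ 4 / 16) * ρ ^ 2 ≤ x * c ^ 2 := mul_le_mul h8 h3 h3' hx0
  have h11 : c * x ≤ c ^ 2 * x := by
    refine mul_le_mul_of_nonneg_right ?_ hx0
    nlinarith
  rw [h6, abs_le]
  constructor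
  · linarith
  · linarith

theorem NLE_proof (hNPB : NPB_stmt) (hVLP : VQ.VLP_stmt) (hNUB : NUB_stmt) : NLE_stmt := by
  intro k hk
  obtain ⟨Cp, hCp, hP⟩ := hNPB k hk
  obtain ⟨Cu, hCu, hU⟩ := hNUB k hk
  refine ⟨7 * Cp, by linarith, ?_⟩
  intro ch e ζ ζ1 B hch hRg
  obtain ⟨he, hζ, hζζ, hCe, hCζ⟩ := hRg
  have hζ1 : 0 < ζ1 := lt_of_lt_of_le hζ hζζ
  have hRg' : Rg Cp e ζ ζ1 := by
    refine ⟨he, hζ, hζζ, ?_, ?_⟩
    · have : 0 ≤ Cp * e := by positivity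
      nlinarith
    · have : 0 ≤ Cp * ζ1 := by positivity
      nlinarith
  obtain ⟨R1, hR1, hP1⟩ := hP ch 2 e ζ ζ1 hch hRg'
  set η : ℝ := Cp * ζ1 with hη
  have hη0 : 0 < η := by positivity
  have hη1 : η ≤ 1 / 7 := by
    have : 7 * Cp * ζ1 ≤ 1 := hCζ
    rw [hη]; linarith
  have hCu0 : 0 < Cu := by linarith
  obtain ⟨L, hL⟩ : ∃ L : ℝ, L = 288 * Cu ^ 4 := ⟨_, rfl⟩
  have hL0 : 0 < L := by rw [hL]; positivity
  refine ⟨max R1 (L ^ (1 / η)), le_trans hR1 (le_max_left _ _), ?_⟩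
  intro R t Γ D p hR hD hp ht
  have hRR1 : R1 ≤ R := (le_max_left _ _).trans hR
  have hRR2 : L ^ (1 / η) ≤ R := (le_max_right _ _).trans hR
  have hR1' : 1 ≤ R := hR1.trans hRR1
  have hR0 : 0 < R := by linarith
  have hRη : L ≤ R ^ η := by
    have h1 : (L ^ (1 / η)) ^ η = L := by
      rw [← Real.rpow_mul hL0.le, one_div, inv_mul_cancel₀ hη0.ne', Real.rpow_one]
    calc L = (L ^ (1 / η)) ^ η := h1.symm
      _ ≤ R ^ η := Real.rpow_le_rpow (by positivity) hRR2 hη0.le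
  obtain ⟨-, A, hA, hAs, hAk, hAf⟩ := hP1 R Γ B D p t hRR1 hD hp ht
  obtain ⟨-, -, hrho, -, -, hlip, -⟩ := hU Γ B D.U hD.pot
  set g := D.fl p.2 t p.1 with hg
  obtain ⟨hρ1, hρ2, hρ3, -⟩ := hrho p.2 g hp
  set ρ := rho D.U p.2 g with hρ
  have hρ0 : 0 ≤ ρ := le_trans (by positivity) hρ1
  set s : ℝ := R ^ (-(1 / 2) + η) with hs
  set m : ℝ := R ^ (3 / 2 + η) with hm
  set N : ℝ := R ^ (1 / 2 + η) with hN
  have hs0 : 0 < s := by positivity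
  have hs1 : s ≤ 1 := by
    rw [hs]
    exact Real.rpow_le_one_of_one_le_of_nonpos hR1' (by linarith)
  have hm0 : 0 < m := by positivity
  have hN0 : 0 < N := by positivity
  have hcd := VCD_proof
  have hcdi0 : cdi 0 = I := by
    have h1 := (hcd.1 I).2
    rw [hcd.2.2.1] at h1
    exact h1
  have hfc : (pv D ch ζ ζ1 R t p) = fun v => VLE_e (R * ρ) v * A v := by
    funext v
    exact hAf v
  have hfs : ContDiff ℝ 2 (fun v => VLE_e (R * ρ) v * A v) :=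
    ((VLE_ec (R * ρ)).mul hA).of_le (show ((2 : ℕ∞) : WithTop ℕ∞) ≤ ((⊤ : ℕ∞) : WithTop ℕ∞) from WithTop.coe_le_coe.2 le_top)
  have hpsi : psi D ch ζ ζ1 R t p = fun z => (fun v => VLE_e (R * ρ) v * A v) (cd (g⁻¹ • z)) := by
    funext z
    show pv D ch ζ ζ1 R t p (cd (g⁻¹ • z)) = _
    rw [hfc]
  have hlap := (hVLP.2 (fun v => VLE_e (R * ρ) v * A v) g hfs).2
  have hG : ∀ z : ℍ, QU.lap (psi D ch ζ ζ1 R t p) z - ((R ^ 2 * (D.U z + 2 * p.2) : ℝ) : ℂ) * psi D ch ζ ζ1 R t p z =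
      -(((1 - ‖cd (g⁻¹ • z)‖ ^ 2 / 4) ^ 2 : ℝ) : ℂ) * (VLE_e (R * ρ) (cd (g⁻¹ • z)) * (-(((R * ρ) ^ 2 : ℝ) : ℂ) * A (cd (g⁻¹ • z)) +
        2 * (((R * ρ : ℝ) : ℂ) * Complex.I) * fderiv ℝ A (cd (g⁻¹ • z)) 1 +
        (fderiv ℝ (fderiv ℝ A) (cd (g⁻¹ • z)) 1 1 + fderiv ℝ (fderiv ℝ A) (cd (g⁻¹ • z)) Complex.I Complex.I))) -
      ((R ^ 2 * (D.U z + 2 * p.2) : ℝ) : ℂ) * (VLE_e (R * ρ) (cd (g⁻¹ • z)) * A (cd (g⁻¹ • z))) := by
    intro z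
    rw [hpsi, hlap z, VLE_lp hA]
  have hz0 : ∀ z : ℍ, s < ‖cd (g⁻¹ • z)‖ →
      QU.lap (psi D ch ζ ζ1 R t p) z - ((R ^ 2 * (D.U z + 2 * p.2) : ℝ) : ℂ) * psi D ch ζ ζ1 R t p z = 0 := by
    intro z hz
    obtain ⟨a1, a2, a3⟩ := VLE_zero hAs hz
    rw [hG z, a1, a2, a3]
    simp
  have hbd : ∀ z : ℍ, ‖QU.lap (psi D ch ζ ζ1 R t p) z - ((R ^ 2 * (D.U z + 2 * p.2) : ℝ) : ℂ) * psi D ch ζ ζ1 R t p z‖ ≤
      6 * Cu ^ 2 * R ^ (3 + 2 * η) := by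
    intro z
    by_cases hz : s < ‖cd (g⁻¹ • z)‖
    · rw [hz0 z hz, norm_zero]
      positivity
    rw [not_lt] at hz
    rw [hG z]
    set v := cd (g⁻¹ • z) with hv
    have hv1 : ‖v‖ ≤ 1 := hz.trans hs1
    have hv0 : 0 ≤ ‖v‖ := norm_nonneg v
    have hUz : Ug D.U g v = D.U z := by
      unfold Ug
      rw [hv, (hcd.1 (g⁻¹ • z)).2, smul_inv_smul]
    have hU0 : Ug D.U g 0 = D.U (g • I) := by
      unfold Ug
      rw [hcdi0]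
    have hl := (hlip g v hv1).2
    rw [hUz, hU0] at hl
    have hbr := NLE_br (E := p.2) hρ3 hCu hρ0 hρ2 hv0 hv1 hl
    have hb : |(1 - ‖v‖ ^ 2 / 4) ^ 2 * (R * ρ) ^ 2 - R ^ 2 * (D.U z + 2 * p.2)| ≤ R ^ 2 * (2 * Cu ^ 2 * ‖v‖) := by
      have h1 : (1 - ‖v‖ ^ 2 / 4) ^ 2 * (R * ρ) ^ 2 - R ^ 2 * (D.U z + 2 * p.2) =
          R ^ 2 * ((1 - ‖v‖ ^ 2 / 4) ^ 2 * ρ ^ 2 - (D.U z + 2 * p.2)) := by ring
      rw [h1, abs_mul, abs_of_nonneg (sq_nonneg R)]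
      exact mul_le_mul_of_nonneg_left hbr (sq_nonneg R)
    have hk0 : ‖A v‖ ≤ m := by
      have := hAk 0 (by norm_num) v
      rwa [norm_iteratedFDeriv_zero, pow_zero, mul_one] at this
    have hk1 : ‖fderiv ℝ A v 1‖ ≤ m * N := by
      have := hAk 1 (by norm_num) v
      rw [pow_one] at this
      exact VLE_n1 this
    have hk2 := VLE_n2 (hAk 2 le_rfl v) 1 (by simp)
    have hk2' := VLE_n2 (hAk 2 le_rfl v) Complex.I (by simp)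
    have hq0 : 0 ≤ (1 - ‖v‖ ^ 2 / 4) ^ 2 := sq_nonneg _
    have hq1 : (1 - ‖v‖ ^ 2 / 4) ^ 2 ≤ 1 := by
      have : ‖v‖ ^ 2 ≤ 1 := by nlinarith
      have h' : 0 ≤ ‖v‖ ^ 2 := sq_nonneg _
      nlinarith
    refine (VLE_pt hq0 hq1 (by positivity) hk0 hk1 hk2 hk2' hb).trans ?_
    have f1 : R ^ 2 * (2 * Cu ^ 2 * ‖v‖) * m ≤ 2 * Cu ^ 2 * R ^ (3 + 2 * η) := by
      calc R ^ 2 * (2 * Cu ^ 2 * ‖v‖) * m ≤ R ^ 2 * (2 * Cu ^ 2 * s) * m := by gcongr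
        _ = 2 * Cu ^ 2 * (R ^ 2 * s * m) := by ring
        _ = 2 * Cu ^ 2 * R ^ (3 + 2 * η) := by
          congr 1
          rw [hs, hm, ← Real.rpow_natCast R 2, ← Real.rpow_add hR0, ← Real.rpow_add hR0]
          congr 1
          push_cast
          ring
    have f2 : 2 * (R * ρ) * (m * N) ≤ 2 * Cu * R ^ (3 + 2 * η) := by
      have h1 : R * (m * N) = R ^ (3 + 2 * η) := by
        rw [hm, hN]
        nth_rewrite 1 [← Real.rpow_one R]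
        rw [← Real.rpow_add hR0, ← Real.rpow_add hR0]
        congr 1
        ring
      have h2 : 0 < R * (m * N) := by positivity
      rw [← h1]
      have h3 : ρ * (R * (m * N)) ≤ Cu * (R * (m * N)) := mul_le_mul_of_nonneg_right hρ2 h2.le
      linarith
    have f3 : 2 * (m * N ^ 2) ≤ 2 * R ^ (3 + 2 * η) := by
      have h1 : m * N ^ 2 = R ^ (5 / 2 + 3 * η) := by
        rw [hm, hN, ← Real.rpow_natCast (R ^ (1 / 2 + η)) 2, ← Real.rpow_mul hR0.le, ← Real.rpow_add hR0]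
        congr 1
        push_cast
        ring
      rw [h1]
      have : R ^ (5 / 2 + 3 * η) ≤ R ^ (3 + 2 * η) := Real.rpow_le_rpow_of_exponent_le hR1' (by linarith)
      linarith
    have f0 : 0 < R ^ (3 + 2 * η) := by positivity
    have f4 : Cu * R ^ (3 + 2 * η) ≤ Cu ^ 2 * R ^ (3 + 2 * η) := by
      refine mul_le_mul_of_nonneg_right ?_ f0.le
      nlinarith
    have f5 : R ^ (3 + 2 * η) ≤ Cu ^ 2 * R ^ (3 + 2 * η) := by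
      refine le_mul_of_one_le_left f0.le ?_
      nlinarith
    linarith
  refine (VLE_int g _ s (6 * Cu ^ 2 * R ^ (3 + 2 * η)) hs0.le hs1 hbd hz0).trans ?_
  have g1 : 8 * (6 * Cu ^ 2 * R ^ (3 + 2 * η) * s) ^ 2 = L * R ^ (5 + 6 * η) := by
    have : R ^ (3 + 2 * η) * s = R ^ (5 / 2 + 3 * η) := by
      rw [hs, ← Real.rpow_add hR0]
      congr 1
      ring
    rw [mul_assoc (6 * Cu ^ 2), this, mul_pow, ← Real.rpow_natCast (R ^ (5 / 2 + 3 * η)) 2, ← Real.rpow_mul hR0.le]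
    have : (5 / 2 + 3 * η) * ((2 : ℕ) : ℝ) = 5 + 6 * η := by push_cast; ring
    rw [this, hL]
    ring
  rw [g1]
  calc L * R ^ (5 + 6 * η) ≤ R ^ η * R ^ (5 + 6 * η) := by gcongr
    _ = R ^ (5 + 7 * Cp * ζ1) := by
      rw [← Real.rpow_add hR0]
      congr 1
      rw [hη]
      ring

end

end Pool.Agent.VN
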