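import Pool.Agent.helper84.VN.Spec4n
import Pool.Agent.helper14.VQE.NMB

/-!
# Row vn:RB4: rigidity of chains of big steps
-/

set_option autoImplicit false

open scoped MatrixGroups ContDiff Topology UpperHalfPlane ComplexConjugate ENNReal
open UpperHalfPlane MeasureTheory Filter Set

namespace Pool.Agent.VN

open Pool.Agent.RS Pool.Agent.VQ
open Pool.Agent.VQE (nm)

theorem RB4_pos {C : ℝ} {A : Prm} (h : Adm C A) (hC : 10 ≤ C) : 0 < A.z ∧ 0 < A.z1 ∧ 0 < A.z2 := by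
  have hC0 : 0 < C := by linarith
  have h1 : 0 < A.z := lt_of_lt_of_le (mul_pos hC0 h.e3) h.z
  have h2 : 0 < A.z1 := lt_of_lt_of_le (mul_pos hC0 h1) h.z1
  exact ⟨h1, h2, lt_of_lt_of_le (mul_pos hC0 h2) h.z2⟩

theorem RB4_mono {C : ℝ} {A : Prm} (h : Adm C A) (hC : 10 ≤ C) : Adm 10 A := by
  obtain ⟨h1, h2, h3⟩ := RB4_pos h hC
  have hm : (0 : ℝ) ≤ A.m := Nat.cast_nonneg _
  exact ⟨h.e3, h.m, (mul_le_mul_of_nonneg_right hC h.e3.le).trans h.z, (mul_le_mul_of_nonneg_right hC h1.le).trans h.z1,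
    (mul_le_mul_of_nonneg_right hC h2.le).trans h.z2, (mul_le_mul_of_nonneg_right hC (mul_nonneg hm h3.le)).trans h.up, h.tu⟩

theorem RB4_e3 {C K : ℝ} {A : Prm} (h : Adm C A) (hC : 10 ≤ C) (hK : K ≤ C) : K * (A.m * A.e3) ≤ 1 / 1000 := by
  have hC0 : 0 < C := by linarith
  have hm : (0 : ℝ) ≤ A.m := Nat.cast_nonneg _
  have h1 : C * (C * (C * A.e3)) ≤ A.z2 :=
    ((mul_le_mul_of_nonneg_left (mul_le_mul_of_nonneg_left h.z hC0.le) hC0.le).trans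
      (mul_le_mul_of_nonneg_left h.z1 hC0.le)).trans h.z2
  have h2 : C * (A.m * (C * (C * (C * A.e3)))) ≤ 1 :=
    (mul_le_mul_of_nonneg_left (mul_le_mul_of_nonneg_left h1 hm) hC0.le).trans h.up
  have h3 : 0 ≤ C * (A.m * A.e3) := mul_nonneg hC0.le (mul_nonneg hm h.e3.le)
  have h4 : (1000 : ℝ) ≤ C ^ 3 := by
    calc (1000 : ℝ) = 10 ^ 3 := by norm_num
      _ ≤ C ^ 3 := pow_le_pow_left₀ (by norm_num) hC 3
  have h5 : 1000 * (C * (A.m * A.e3)) ≤ 1 := by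
    calc 1000 * (C * (A.m * A.e3)) ≤ C ^ 3 * (C * (A.m * A.e3)) := mul_le_mul_of_nonneg_right h4 h3
      _ = C * (A.m * (C * (C * (C * A.e3)))) := by ring
      _ ≤ 1 := h2
  have h6 : K * (A.m * A.e3) ≤ C * (A.m * A.e3) := mul_le_mul_of_nonneg_right hK (mul_nonneg hm h.e3.le)
  linarith

theorem RB4_exp (A : Prm) (K R : ℝ) (hR : 0 < R) : Real.exp (K * A.tu R) = R ^ (K * (A.m * A.e3)) := by
  rw [Real.rpow_def_of_pos hR]
  congr 1
  show K * (A.m * (A.e3 * Real.log R)) = Real.log R * (K * (A.m * A.e3))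
  ring

theorem RB4_nm3 {a b c : SL(2, ℝ)} {η : ℝ} (h0 : η ≤ 1 / 16) (ha : nm a ≤ η) (hb : nm b ≤ η) (hc : nm c ≤ η) :
    nm (a⁻¹ * b * c) ≤ 5 * η := by
  obtain ⟨n1, -, n3, -, -, n6, -⟩ := VQE.NMB_proof
  have a0 := n1 a
  have b0 := n1 b
  have c0 := n1 c
  have d0 := n1 (a⁻¹ * b)
  have h1 := n6 a⁻¹ b
  rw [n3] at h1
  have h2 : nm a * nm b ≤ η * (1 / 16) := mul_le_mul ha (hb.trans h0) b0 (a0.trans ha)
  have h3 : nm (a⁻¹ * b) ≤ 3 * η := by nlinarith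
  have h4 := n6 (a⁻¹ * b) c
  have h5 : nm (a⁻¹ * b) * nm c ≤ 3 * η * (1 / 16) := mul_le_mul h3 (hc.trans h0) c0 (d0.trans h3)
  nlinarith

theorem RB4_sgn {a b a' b' : SL(2, ℝ)} {η : ℝ} (h1 : a' = a ∨ a' = -a) (h2 : b' = b ∨ b' = -b)
    (h : nm (a⁻¹ * b) ≤ η ∨ nm (-(a⁻¹ * b)) ≤ η) : nm (a'⁻¹ * b') ≤ η ∨ nm (-(a'⁻¹ * b')) ≤ η := by
  have h3 : a'⁻¹ * b' = a⁻¹ * b ∨ a'⁻¹ * b' = -(a⁻¹ * b) := by
    rcases h1 with e1 | e1 <;> rcases h2 with e2 | e2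
    · left
      rw [e1, e2]
    · right
      rw [e1, e2, mul_neg]
    · right
      rw [e1, e2, inv_neg, neg_mul]
    · left
      rw [e1, e2, inv_neg, neg_mul_neg]
  rcases h3 with e | e
  · rw [e]
    exact h
  · rw [e, neg_neg]
    exact h.symm

/-- the index of a big step -/
theorem RB4_idx (N M i : ℕ) (hN : 1 ≤ N) (hM : 1 ≤ M) (hi : i ≤ N * M) : ∃ j l, j < N ∧ l ≤ M ∧ i = j * M + l := by
  rcases lt_or_eq_of_le hi with h | h
  · refine ⟨i / M, i % M, (Nat.div_lt_iff_lt_mul (by omega)).2 h, (Nat.mod_lt _ (by omega)).le, ?_⟩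
    rw [mul_comm]
    exact (Nat.div_add_mod i M).symm
  · refine ⟨N - 1, M, by omega, le_rfl, ?_⟩
    rw [h]
    obtain ⟨N', rfl⟩ : ∃ N', N = N' + 1 := ⟨N - 1, by omega⟩
    rw [Nat.add_sub_cancel, Nat.succ_mul]

/-- the pseudo-orbit follows the flow during one big step -/
theorem RB4_follow {k C K2 : ℝ} {D : Dyn} (hF : FNE k C D)
    (hG : ∀ D : Dyn, FNE k C D → ∀ (t ε : ℝ) (n : ℕ) (w : ℕ → SL(2, ℝ) × ℝ), 0 ≤ t → 0 ≤ ε → K2 * ((n + 1) * ε * Real.exp (K2 * (n * t))) ≤ 1 → PO D (4 * k) t ε n w →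
      (∀ i ≤ n, |(w i).2 - (w 0).2| ≤ ε) → ∀ i ≤ n, nm ((D.fl (w 0).2 (i * t) (w 0).1)⁻¹ * (w i).1) ≤ K2 * ((n + 1) * ε * Real.exp (K2 * (n * t))))
    (t ε β e0 : ℝ) (N M : ℕ) (v w : ℕ → SL(2, ℝ) × ℝ) (ht : 0 ≤ t) (hε : 0 ≤ ε)
    (hβ : K2 * ((M + 1) * ε * Real.exp (K2 * (M * t))) ≤ β) (hβ1 : β ≤ 1)
    (hw : PO D (4 * k) t ε (N * M) w) (hPm : ∀ j ≤ N, Pm (v j) (w (j * M))) (hen : ∀ i ≤ N * M, |(w i).2 - e0| ≤ ε / 2)
    (j l : ℕ) (hj : j < N) (hl : l ≤ M) : ∃ P y : SL(2, ℝ), (w (j * M + l)).1 = P * y ∧ nm y ≤ β ∧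
      (P = D.fl (v j).2 (l * t) (v j).1 ∨ P = -D.fl (v j).2 (l * t) (v j).1) := by
  have hb : ∀ l ≤ M, j * M + l ≤ N * M := by
    intro l hl
    calc j * M + l ≤ j * M + M := Nat.add_le_add_left hl _
      _ = (j + 1) * M := (Nat.succ_mul j M).symm
      _ ≤ N * M := Nat.mul_le_mul_right _ hj
  have hPO : PO D (4 * k) t ε M (fun l => w (j * M + l)) := by
    refine ⟨fun l hl => hw.en _ (hb l hl), fun l hl => ?_⟩
    have h1 := hw.st (j * M + l) (by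
      have h2 := hb (l + 1) hl
      omega)
    exact h1
  have h0 : ∀ l ≤ M, |(w (j * M + l)).2 - (w (j * M + 0)).2| ≤ ε := by
    intro l hl
    have a1 := hen _ (hb l hl)
    have a2 := hen _ (hb 0 (Nat.zero_le _))
    have a3 : (w (j * M + l)).2 - (w (j * M + 0)).2 = ((w (j * M + l)).2 - e0) - ((w (j * M + 0)).2 - e0) := by ring
    rw [a3]
    refine (abs_sub _ _).trans ?_
    linarith
  have h1 := hG D hF t ε M (fun l => w (j * M + l)) ht hε (hβ.trans hβ1) hPO h0 l hl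
  refine ⟨D.fl (w (j * M + 0)).2 (l * t) (w (j * M + 0)).1, (D.fl (w (j * M + 0)).2 (l * t) (w (j * M + 0)).1)⁻¹ * (w (j * M + l)).1,
    (mul_inv_cancel_left _ _).symm, h1.trans hβ, ?_⟩
  rw [Nat.add_zero]
  have hE : |(v j).2| ≤ k := by
    have h2 := hw.en (j * M) (hb 0 (Nat.zero_le _))
    rw [(hPm j hj.le).2] at h2
    linarith
  obtain ⟨h3, h4⟩ := hPm j hj.le
  rw [h4]
  rcases h3 with h3 | h3
  · left
    rw [h3]
  · right
    rw [h3, hF.neg _ _ _ hE]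

theorem RB4_proof (hFN4 : FN4_stmt) (hRN4 : RN4_stmt) (hCE4 : CE4_stmt) (hGF4 : GF4_stmt) (hAR4 : VQ.AR4_stmt) : RB4_stmt := by
  intro Γ hΓ k B hk
  obtain ⟨CF, hCF⟩ := hFN4 Γ hΓ k B hk
  obtain ⟨K1, hK1, hRN⟩ := hRN4 k CF
  obtain ⟨K2, hK2, hG⟩ := hGF4 k CF
  have hK1p : 0 < K1 := by linarith
  refine ⟨max 10 K2, 1 / (16 * K1), le_max_left _ _, by positivity, ?_⟩
  intro A N hA hN
  have hC10 : 10 ≤ max 10 K2 := le_max_left _ _
  obtain ⟨-, -, hz2⟩ := RB4_pos hA hC10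
  have hA10 := RB4_mono hA hC10
  have he3 := RB4_e3 hA hC10 (le_max_right 10 K2)
  have hm1 : (1 : ℝ) ≤ A.m := by exact_mod_cast hA.m
  have hz2s : A.z2 ≤ 1 / 10 := by
    have h1 := hA10.up
    have h2 : A.z2 ≤ A.m * A.z2 := le_mul_of_one_le_left hz2.le hm1
    linarith
  obtain ⟨Rα, hRα, hAR⟩ := hAR4 A N (max K1 K2) (4 * k) hA10 hN (hK1.trans (le_max_left _ _)) (by positivity)
  have hsm : ∀ᶠ R : ℝ in atTop, R ^ (-(1 / 3) : ℝ) ≤ 1 / (16 * K1) := by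
    have h := tendsto_rpow_neg_atTop (y := 1 / 3) (by norm_num)
    exact (h.eventually (gt_mem_nhds (show (0 : ℝ) < 1 / (16 * K1) by positivity))).mono fun R hR => le_of_lt hR
  obtain ⟨Rβ, hRβ⟩ := eventually_atTop.1 hsm
  refine ⟨max Rα Rβ, le_trans (by linarith) (le_max_left _ _), ?_⟩
  intro R D hR hOK v v' hv hv' hv0 hvN hclose
  have hRa : Rα ≤ R := (le_max_left _ _).trans hR
  have hR3 : 3 ≤ R := hRα.trans hRa
  have hRp : 0 < R := by linarith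
  have hb := hRβ R ((le_max_right _ _).trans hR)
  obtain ⟨k', t, ε, hk', ht1, ht2, hsg, hr0, hr1, hε, h3, h2, hKε, hρK, hW, -, -⟩ := hAR R hRa
  have hF := hCF D hOK
  set ρ : ℝ := R ^ (-(1 / 2) + 3 / 2 * A.z2) with hρ
  have hρ0 : 0 < ρ := Real.rpow_pos_of_pos hRp _
  have hW' : ∀ E ∈ Wi 2 R, |E| ≤ k := fun E hE => by
    have h := hW E hE
    linarith
  obtain ⟨w, hw1, hw2, hw3, hw4⟩ := hCE4 k CF D hF A R t ε k' N v hsg hk' hA.m hr0 hr1 h3 hW' hN hv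
  obtain ⟨w', hw1', hw2', hw3', hw4'⟩ := hCE4 k CF D hF A R t ε k' N v' hsg hk' hA.m hr0 hr1 h3 hW' hN hv'
  obtain ⟨M, hM⟩ : ∃ M : ℕ, M = A.m * k' := ⟨_, rfl⟩
  rw [← hM] at hw1 hw1' hw3 hw3' hw4 hw4' hKε
  have hM1 : 1 ≤ M := by
    rw [hM]
    exact Nat.mul_pos hA.m hk'
  have hM1' : (1 : ℝ) ≤ M := by exact_mod_cast hM1
  have hN1' : (1 : ℝ) ≤ N := by exact_mod_cast hN
  have hMt : (M : ℝ) * t = A.tu R := by
    rw [hM]
    push_cast
    show (A.m : ℝ) * k' * t = A.m * A.sg R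
    rw [hsg, mul_assoc]
  have hKM1 : K1 ≤ max K1 K2 := le_max_left _ _
  have hKM2 : K2 ≤ max K1 K2 := le_max_right _ _
  have hn0 : (0 : ℝ) ≤ ((N * M : ℕ) + 1) * ε := by positivity
  have hK1ε : K1 * (((N * M : ℕ) + 1) * ε) ≤ ρ := (mul_le_mul_of_nonneg_right hKM1 hn0).trans hKε
  have hρ1 : ρ ≤ 1 := by
    refine hρK.trans ?_
    rw [div_le_one (by linarith)]
    linarith
  -- the deviation during one big step
  have hβ : K2 * ((M + 1) * ε * Real.exp (K2 * (M * t))) ≤ 1 / (16 * K1) := by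
    have a1 : K2 * ((M + 1) * ε) ≤ ρ := by
      refine le_trans ?_ hKε
      refine mul_le_mul hKM2 (mul_le_mul_of_nonneg_right ?_ hε.le) (by positivity) (by linarith)
      have a2 : (M : ℝ) ≤ N * M := le_mul_of_one_le_left (by linarith) hN1'
      push_cast
      linarith
    have a3 : Real.exp (K2 * (M * t)) ≤ R ^ (1 / 1000 : ℝ) := by
      rw [hMt, RB4_exp A K2 R hRp]
      exact Real.rpow_le_rpow_of_exponent_le (by linarith) he3
    calc K2 * ((M + 1) * ε * Real.exp (K2 * (M * t))) = K2 * ((M + 1) * ε) * Real.exp (K2 * (M * t)) := by ring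
      _ ≤ ρ * R ^ (1 / 1000 : ℝ) := mul_le_mul a1 a3 (Real.exp_pos _).le hρ0.le
      _ = R ^ (-(1 / 2) + 3 / 2 * A.z2 + 1 / 1000) := by rw [hρ, ← Real.rpow_add hRp]
      _ ≤ R ^ (-(1 / 3) : ℝ) := Real.rpow_le_rpow_of_exponent_le (by linarith) (by linarith)
      _ ≤ 1 / (16 * K1) := hb
  have hη1 : 1 / (16 * K1) ≤ 1 / 16 := one_div_le_one_div_of_le (by norm_num) (by linarith)
  have h5η : 5 * (1 / (16 * K1)) ≤ 1 / K1 := by
    rw [mul_one_div, div_le_div_iff₀ (by positivity) hK1p]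
    linarith
  have hen : ∀ i ≤ N * M, |(w i).2 - (v 0).2| ≤ ε / 2 := fun i hi => (hw4 i hi).trans (by linarith)
  have hen' : ∀ i ≤ N * M, |(w' i).2 - (v 0).2| ≤ ε / 2 := fun i hi => by
    have h := hw4' i hi
    rw [hv0] at h
    linarith
  have hee : ∀ i ≤ N * M, |(w' i).2 - (w i).2| ≤ ε := by
    intro i hi
    have a1 := hen i hi
    have a2 := hen' i hi
    have a3 : (w' i).2 - (w i).2 = ((w' i).2 - (v 0).2) - ((w i).2 - (v 0).2) := by ring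
    rw [a3]
    refine (abs_sub _ _).trans ?_
    linarith
  have hcl : ∀ i ≤ N * M, nm ((w i).1⁻¹ * (w' i).1) ≤ 1 / K1 ∨ nm (-((w i).1⁻¹ * (w' i).1)) ≤ 1 / K1 := by
    intro i hi
    obtain ⟨j, l, hj, hl, rfl⟩ := RB4_idx N M i hN hM1 hi
    obtain ⟨P, y, e1, hy, hP⟩ := RB4_follow hF hG t ε (1 / (16 * K1)) (v 0).2 N M v w (by linarith) hε.le hβ (by linarith) hw1 hw3 hen j l hj hl
    obtain ⟨P', y', e1', hy', hP'⟩ := RB4_follow hF hG t ε (1 / (16 * K1)) (v 0).2 N M v' w' (by linarith) hε.le hβ (by linarith) hw1' hw3' hen' j l hj hl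
    have hlt : (0 : ℝ) ≤ l * t := by positivity
    have hlM : (l : ℝ) * t ≤ A.tu R := by
      rw [← hMt]
      exact mul_le_mul_of_nonneg_right (by exact_mod_cast hl) (by linarith)
    have hPP := RB4_sgn hP hP' (hclose j hj (l * t) hlt hlM)
    have e2 : (w (j * M + l)).1⁻¹ * (w' (j * M + l)).1 = y⁻¹ * (P⁻¹ * P') * y' := by
      rw [e1, e1', mul_inv_rev]
      simp only [mul_assoc]
    rw [e2]
    rcases hPP with h | h
    · left
      exact (RB4_nm3 hη1 hy h hy').trans h5η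
    · right
      have e3 : -(y⁻¹ * (P⁻¹ * P') * y') = y⁻¹ * (-(P⁻¹ * P')) * y' := by
        rw [mul_neg, neg_mul]
      rw [e3]
      exact (RB4_nm3 hη1 hy h hy').trans h5η
  have hRN' := hRN D hF t ε (N * M) w w' ht1 ht2 hε (hK1ε.trans hρ1) hw1 hw1' hee hcl (by rw [hw2, hw2', hv0]) (by
    have a1 := (hw3 N le_rfl).1
    have a2 := (hw3' N le_rfl).1
    rw [hvN] at a2
    rcases a1 with a1 | a1 <;> rcases a2 with a2 | a2
    · left
      rw [a1, a2]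
    · right
      rw [a1, a2]
    · right
      rw [a1, a2, neg_neg]
    · left
      rw [a1, a2])
  intro j hj
  have hji : j * M ≤ N * M := Nat.mul_le_mul_right _ hj
  obtain ⟨a1, a2⟩ := hw3 j hj
  obtain ⟨a1', a2'⟩ := hw3' j hj
  refine ⟨?_, ?_⟩
  · have s1 : (v j).1 = (w (j * M)).1 ∨ (v j).1 = -(w (j * M)).1 := by
      rcases a1 with a1 | a1
      · left
        rw [a1]
      · right
        rw [a1, neg_neg]
    have s1' : (v' j).1 = (w' (j * M)).1 ∨ (v' j).1 = -(w' (j * M)).1 := by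
      rcases a1' with a1' | a1'
      · left
        rw [a1']
      · right
        rw [a1', neg_neg]
    exact RB4_sgn s1 s1' (Or.inl ((hRN' _ hji).trans hK1ε))
  · have a3 := hee _ hji
    rw [a2, a2', abs_sub_comm] at a3
    refine a3.trans (le_trans ?_ hK1ε)
    have a4 : (1 : ℝ) ≤ ((N * M : ℕ) : ℝ) + 1 := by
      have : (0 : ℝ) ≤ ((N * M : ℕ) : ℝ) := Nat.cast_nonneg _
      linarith
    calc ε = 1 * (1 * ε) := by ring
      _ ≤ K1 * (((N * M : ℕ) + 1) * ε) := by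
          refine mul_le_mul hK1 (mul_le_mul_of_nonneg_right a4 hε.le) (by linarith) (by linarith)

end Pool.Agent.VN
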