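import Pool.Agent.helper84.VN.Spec4n

/-!
# Row vn:SN4: short times, second order
-/

set_option autoImplicit false

open scoped MatrixGroups ContDiff Topology UpperHalfPlane ComplexConjugate ENNReal
open UpperHalfPlane MeasureTheory Filter Set

namespace Pool.Agent.VN

open Pool.Agent.RS Pool.Agent.VQ
open Pool.Agent.VQE (nm)

theorem SN4_XX (U : ℍ → ℝ) (E : ℝ) (g : SL(2, ℝ)) (A : Matrix (Fin 2) (Fin 2) ℝ) (i : Fin 2) :
    (A * XX U E g) i 0 = A i 0 * (rho U E g / 2) - A i 1 * (kap U E g / 2) ∧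
    (A * XX U E g) i 1 = A i 0 * (kap U E g / 2) - A i 1 * (rho U E g / 2) := by
  constructor <;> rw [Matrix.mul_apply, Fin.sum_univ_two] <;> unfold XX A0 K0 <;> simp <;> ring

theorem SN4_lin {C u v P Q U V : ℝ} (hu : |u| ≤ U) (hv : |v| ≤ V) (hU : 0 ≤ U) (hV : 0 ≤ V) (hP : |P| ≤ C)
    (hQ : |Q| ≤ C) : |u * (P / 2) - v * (Q / 2)| ≤ U * (C / 2) + V * (C / 2) := by
  have hP2 : |P / 2| ≤ C / 2 := by
    rw [abs_div, abs_two]
    linarith
  have hQ2 : |Q / 2| ≤ C / 2 := by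
    rw [abs_div, abs_two]
    linarith
  have h1 : |u * (P / 2)| ≤ U * (C / 2) := by
    rw [abs_mul]
    exact mul_le_mul hu hP2 (abs_nonneg _) hU
  have h2 : |v * (Q / 2)| ≤ V * (C / 2) := by
    rw [abs_mul]
    exact mul_le_mul hv hQ2 (abs_nonneg _) hV
  rw [abs_le] at h1 h2 ⊢
  constructor <;> linarith [h1.1, h1.2, h2.1, h2.2]

theorem SN4_eps {ε z b : ℝ} (hε : |ε| = 1) (hz : |z| < b) : |ε * z| < b := by
  rw [abs_mul, hε, one_mul]
  exact hz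

/-- mean value inequality -/
theorem SN4_mv (f f' : ℝ → ℝ) (M t : ℝ) (ht : 0 ≤ t) (h0 : f 0 = 0) (hd : ∀ x, HasDerivAt f (f' x) x)
    (hb : ∀ x, 0 ≤ x → x ≤ t → |f' x| ≤ M * x) (hM : 0 ≤ M) : |f t| ≤ M * t ^ 2 := by
  have h1 := norm_image_sub_le_of_norm_deriv_le_segment' (f := f) (f' := f') (C := M * t) (a := 0) (b := t)
    (fun x _ => (hd x).hasDerivWithinAt)
    (fun x hx => (hb x hx.1 hx.2.le).trans (mul_le_mul_of_nonneg_left hx.2.le hM)) t ⟨ht, le_rfl⟩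
  rw [h0, sub_zero, sub_zero, Real.norm_eq_abs] at h1
  refine h1.trans (le_of_eq ?_)
  ring

/-- three terms -/
theorem SN4_three {C x u v w P Q ε : ℝ} (hC : 1 ≤ C) (hx : 0 ≤ x) (hε : |ε| = 1) (hu : |u| ≤ 2 * C * x) (hv : |v| ≤ 2 * C * x)
    (hP : |P| ≤ C) (hQ : |Q| ≤ C) (hw : |w| ≤ C * (2 * C * x)) :
    |ε * (u * (P / 2) - v * (Q / 2) + w / 2)| ≤ 3 * C ^ 2 * x := by
  have h0 : 0 ≤ 2 * C * x := by positivity
  have h1 := SN4_lin hu hv h0 h0 hP hQ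
  have h2 : |w / 2| ≤ C * (2 * C * x) / 2 := by
    rw [abs_div, abs_two]
    linarith
  rw [abs_mul, hε, one_mul]
  refine (abs_add_le _ _).trans ?_
  calc |u * (P / 2) - v * (Q / 2)| + |w / 2| ≤ (2 * C * x * (C / 2) + 2 * C * x * (C / 2)) + C * (2 * C * x) / 2 :=
        add_le_add h1 h2
    _ = 3 * C ^ 2 * x := by ring

theorem SN4_core (C ε P0 Q0 : ℝ) (a b c e P Q : ℝ → ℝ) (hC : 1 ≤ C) (hε : |ε| = 1)
    (hP : ∀ t, |P t| ≤ C) (hQ : ∀ t, |Q t| ≤ C)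
    (hLP : ∀ t, |P t - P0| ≤ C * max (max |a t - 1| |b t|) (max |c t| |e t - 1|))
    (hLQ : ∀ t, |Q t - Q0| ≤ C * max (max |a t - 1| |b t|) (max |c t| |e t - 1|))
    (ha : ∀ t, HasDerivAt a (ε * (a t * (P t / 2) - b t * (Q t / 2))) t)
    (hb : ∀ t, HasDerivAt b (ε * (a t * (Q t / 2) - b t * (P t / 2))) t)
    (hc : ∀ t, HasDerivAt c (ε * (c t * (P t / 2) - e t * (Q t / 2))) t)
    (he : ∀ t, HasDerivAt e (ε * (c t * (Q t / 2) - e t * (P t / 2))) t)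
    (a0 : a 0 = 1) (b0 : b 0 = 0) (c0 : c 0 = 0) (e0 : e 0 = 1) :
    ∀ t, 0 ≤ t → t ≤ 1 / (2 * C) → (|a t - 1| ≤ 2 * C * t ∧ |b t| ≤ 2 * C * t ∧ |c t| ≤ 2 * C * t ∧ |e t - 1| ≤ 2 * C * t) ∧
      |a t - 1 - ε * (P0 / 2) * t| ≤ 3 * C ^ 2 * t ^ 2 ∧ |e t - 1 + ε * (P0 / 2) * t| ≤ 3 * C ^ 2 * t ^ 2 ∧
      |b t - ε * (Q0 / 2) * t| ≤ 3 * C ^ 2 * t ^ 2 ∧ |c t + ε * (Q0 / 2) * t| ≤ 3 * C ^ 2 * t ^ 2 := by
  have hC0 : 0 < C := by linarith
  have hder : ∀ t, HasDerivAt (fun t => ((a t - 1, b t), (c t, e t - 1)))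
      ((ε * (a t * (P t / 2) - b t * (Q t / 2)), ε * (a t * (Q t / 2) - b t * (P t / 2))),
        (ε * (c t * (P t / 2) - e t * (Q t / 2)), ε * (c t * (Q t / 2) - e t * (P t / 2)))) t := fun t =>
    (((ha t).sub_const 1).prodMk (hb t)).prodMk ((hc t).prodMk ((he t).sub_const 1))
  have key := image_norm_le_of_norm_deriv_right_lt_deriv_boundary (a := 0) (b := 1 / (2 * C))
    (f := fun t => ((a t - 1, b t), (c t, e t - 1)))
    (f' := fun t => ((ε * (a t * (P t / 2) - b t * (Q t / 2)), ε * (a t * (Q t / 2) - b t * (P t / 2))),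
        (ε * (c t * (P t / 2) - e t * (Q t / 2)), ε * (c t * (Q t / 2) - e t * (P t / 2)))))
    (B := fun t => 2 * C * t) (B' := fun _ => 2 * C)
    (fun t _ => (hder t).continuousAt.continuousWithinAt) (fun t _ => (hder t).hasDerivWithinAt)
    (by simp [a0, b0, c0, e0]) (fun t => ((hasDerivAt_id t).const_mul (2 * C)).congr_deriv (by ring))
    (by
      intro t ht hn
      have hn' : ‖(((a t - 1, b t), (c t, e t - 1)) : (ℝ × ℝ) × (ℝ × ℝ))‖ ≤ 1 := by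
        have h2 := ht.2
        change ‖(((a t - 1, b t), (c t, e t - 1)) : (ℝ × ℝ) × (ℝ × ℝ))‖ = 2 * C * t at hn
        rw [hn]
        have h3 : 2 * C * t ≤ 2 * C * (1 / (2 * C)) := mul_le_mul_of_nonneg_left h2.le (by positivity)
        rwa [mul_one_div_cancel (by positivity)] at h3
      rw [norm_prod_le_iff, norm_prod_le_iff, norm_prod_le_iff] at hn'
      obtain ⟨⟨h1, h2⟩, h3, h4⟩ := hn'
      simp only [Real.norm_eq_abs] at h1 h2 h3 h4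
      have ha' : |a t| ≤ 2 := by
        rw [abs_le] at h1 ⊢
        constructor <;> linarith [h1.1, h1.2]
      have he' : |e t| ≤ 2 := by
        rw [abs_le] at h4 ⊢
        constructor <;> linarith [h4.1, h4.2]
      have hlt : (2 : ℝ) * (C / 2) + 1 * (C / 2) < 2 * C := by linarith
      have hlt' : (1 : ℝ) * (C / 2) + 2 * (C / 2) < 2 * C := by linarith
      have r1 := (SN4_lin ha' h2 (by norm_num) (by norm_num) (hP t) (hQ t)).trans_lt hlt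
      have r2 := (SN4_lin ha' h2 (by norm_num) (by norm_num) (hQ t) (hP t)).trans_lt hlt
      have r3 := (SN4_lin h3 he' (by norm_num) (by norm_num) (hP t) (hQ t)).trans_lt hlt'
      have r4 := (SN4_lin h3 he' (by norm_num) (by norm_num) (hQ t) (hP t)).trans_lt hlt'
      change ‖(((ε * (a t * (P t / 2) - b t * (Q t / 2)), ε * (a t * (Q t / 2) - b t * (P t / 2))),
        (ε * (c t * (P t / 2) - e t * (Q t / 2)), ε * (c t * (Q t / 2) - e t * (P t / 2)))) : (ℝ × ℝ) × (ℝ × ℝ))‖ < 2 * C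
      rw [Prod.norm_def, Prod.norm_def, Prod.norm_def]
      simp only [Real.norm_eq_abs]
      exact max_lt (max_lt (SN4_eps hε r1) (SN4_eps hε r2)) (max_lt (SN4_eps hε r3) (SN4_eps hε r4)))
  have hA : ∀ t, 0 ≤ t → t ≤ 1 / (2 * C) → |a t - 1| ≤ 2 * C * t ∧ |b t| ≤ 2 * C * t ∧ |c t| ≤ 2 * C * t ∧ |e t - 1| ≤ 2 * C * t := by
    intro t ht0 ht1
    have h := key ⟨ht0, ht1⟩
    change ‖(((a t - 1, b t), (c t, e t - 1)) : (ℝ × ℝ) × (ℝ × ℝ))‖ ≤ 2 * C * t at h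
    rw [norm_prod_le_iff, norm_prod_le_iff, norm_prod_le_iff] at h
    obtain ⟨⟨h1, h2⟩, h3, h4⟩ := h
    exact ⟨h1, h2, h3, h4⟩
  intro t ht0 ht1
  have hm : ∀ x, 0 ≤ x → x ≤ t → max (max |a x - 1| |b x|) (max |c x| |e x - 1|) ≤ 2 * C * x := by
    intro x hx0 hx1
    obtain ⟨h1, h2, h3, h4⟩ := hA x hx0 (hx1.trans ht1)
    exact max_le (max_le h1 h2) (max_le h3 h4)
  have hwP : ∀ x, 0 ≤ x → x ≤ t → |P x - P0| ≤ C * (2 * C * x) := fun x h0 h1 =>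
    (hLP x).trans (mul_le_mul_of_nonneg_left (hm x h0 h1) hC0.le)
  have hwQ : ∀ x, 0 ≤ x → x ≤ t → |Q x - Q0| ≤ C * (2 * C * x) := fun x h0 h1 =>
    (hLQ x).trans (mul_le_mul_of_nonneg_left (hm x h0 h1) hC0.le)
  have hlin : ∀ (r x : ℝ), HasDerivAt (fun y : ℝ => r * y) r x := fun r x =>
    ((hasDerivAt_id x).const_mul r).congr_deriv (mul_one r)
  refine ⟨hA t ht0 ht1, ?_, ?_, ?_, ?_⟩
  · refine SN4_mv (fun x => a x - 1 - ε * (P0 / 2) * x)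
      (fun x => ε * ((a x - 1) * (P x / 2) - b x * (Q x / 2) + (P x - P0) / 2)) (3 * C ^ 2) t ht0
      (by simp [a0]) (fun x => ?_) (fun x h0 h1 => ?_) (by positivity)
    · refine (((ha x).sub_const 1).sub (hlin (ε * (P0 / 2)) x)).congr_deriv ?_
      ring
    · obtain ⟨h3, h4, h5, h6⟩ := hA x h0 (h1.trans ht1)
      exact SN4_three hC h0 hε h3 h4 (hP x) (hQ x) (hwP x h0 h1)
  · refine SN4_mv (fun x => e x - 1 + ε * (P0 / 2) * x)
      (fun x => ε * (c x * (Q x / 2) - (e x - 1) * (P x / 2) + (P0 - P x) / 2)) (3 * C ^ 2) t ht0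
      (by simp [e0]) (fun x => ?_) (fun x h0 h1 => ?_) (by positivity)
    · refine (((he x).sub_const 1).add (hlin (ε * (P0 / 2)) x)).congr_deriv ?_
      ring
    · obtain ⟨h3, h4, h5, h6⟩ := hA x h0 (h1.trans ht1)
      have h7 := hwP x h0 h1
      rw [abs_sub_comm] at h7
      exact SN4_three hC h0 hε h5 h6 (hQ x) (hP x) h7
  · refine SN4_mv (fun x => b x - ε * (Q0 / 2) * x)
      (fun x => ε * ((a x - 1) * (Q x / 2) - b x * (P x / 2) + (Q x - Q0) / 2)) (3 * C ^ 2) t ht0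
      (by simp [b0]) (fun x => ?_) (fun x h0 h1 => ?_) (by positivity)
    · refine ((hb x).sub (hlin (ε * (Q0 / 2)) x)).congr_deriv ?_
      ring
    · obtain ⟨h3, h4, h5, h6⟩ := hA x h0 (h1.trans ht1)
      exact SN4_three hC h0 hε h3 h4 (hQ x) (hP x) (hwQ x h0 h1)
  · refine SN4_mv (fun x => c x + ε * (Q0 / 2) * x)
      (fun x => ε * (c x * (P x / 2) - (e x - 1) * (Q x / 2) + (Q0 - Q x) / 2)) (3 * C ^ 2) t ht0
      (by simp [c0]) (fun x => ?_) (fun x h0 h1 => ?_) (by positivity)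
    · refine ((hc x).add (hlin (ε * (Q0 / 2)) x)).congr_deriv ?_
      ring
    · obtain ⟨h3, h4, h5, h6⟩ := hA x h0 (h1.trans ht1)
      have h7 := hwQ x h0 h1
      rw [abs_sub_comm] at h7
      exact SN4_three hC h0 hε h5 h6 (hP x) (hQ x) h7

theorem SN4_ent (g h : SL(2, ℝ)) (i j : Fin 2) :
    (g⁻¹ * h).1 i j = (g⁻¹).1 i 0 * h.1 0 j + (g⁻¹).1 i 1 * h.1 1 j := by
  rw [Matrix.SpecialLinearGroup.coe_mul, Matrix.mul_apply, Fin.sum_univ_two]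

theorem SN4_d {k C : ℝ} {D : Dyn} (hD : FNE k C D) {E : ℝ} (hE : |E| ≤ k) (g : SL(2, ℝ)) (i : Fin 2) (t : ℝ) :
    HasDerivAt (fun s => (g⁻¹ * D.fl E s g).1 i 0) ((g⁻¹ * D.fl E t g).1 i 0 * (rho D.U E (D.fl E t g) / 2) -
      (g⁻¹ * D.fl E t g).1 i 1 * (kap D.U E (D.fl E t g) / 2)) t ∧
    HasDerivAt (fun s => (g⁻¹ * D.fl E s g).1 i 1) ((g⁻¹ * D.fl E t g).1 i 0 * (kap D.U E (D.fl E t g) / 2) -
      (g⁻¹ * D.fl E t g).1 i 1 * (rho D.U E (D.fl E t g) / 2)) t := by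
  have e0 : (fun s => (g⁻¹ * D.fl E s g).1 i 0) =
      fun s => (g⁻¹).1 i 0 * (D.fl E s g).1 0 0 + (g⁻¹).1 i 1 * (D.fl E s g).1 1 0 :=
    funext fun s => SN4_ent g _ i 0
  have e1 : (fun s => (g⁻¹ * D.fl E s g).1 i 1) =
      fun s => (g⁻¹).1 i 0 * (D.fl E s g).1 0 1 + (g⁻¹).1 i 1 * (D.fl E s g).1 1 1 :=
    funext fun s => SN4_ent g _ i 1
  have h := fun j k => hD.der E t g hE j k
  constructor
  · rw [e0]
    have h0 := ((h 0 0).const_mul ((g⁻¹).1 i 0)).add ((h 1 0).const_mul ((g⁻¹).1 i 1))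
    refine h0.congr_deriv ?_
    rw [(SN4_XX _ _ _ _ _).1, (SN4_XX _ _ _ _ _).1, SN4_ent, SN4_ent]
    ring
  · rw [e1]
    have h0 := ((h 0 1).const_mul ((g⁻¹).1 i 0)).add ((h 1 1).const_mul ((g⁻¹).1 i 1))
    refine h0.congr_deriv ?_
    rw [(SN4_XX _ _ _ _ _).2, (SN4_XX _ _ _ _ _).2, SN4_ent, SN4_ent]
    ring

theorem SN4_neg {F : ℝ → ℝ} {F' t : ℝ} (h : HasDerivAt F F' (-t)) : HasDerivAt (fun s => F (-s)) (-1 * F') t := by
  have h1 := HasDerivAt.comp t h (hasDerivAt_neg t)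
  exact h1.congr_deriv (by ring)

theorem SN4_proof : SN4_stmt := by
  intro k C
  refine ⟨1 + 3 * C ^ 2, by nlinarith [sq_nonneg C], ?_⟩
  intro D hD E s g θ hE hs hθ
  have hC := hD.C1
  have hC0 : 0 < C := by linarith
  have h0 : g⁻¹ * D.fl E 0 g = 1 := by rw [hD.zero, inv_mul_cancel]
  have hP : ∀ t, |rho D.U E (D.fl E t g)| ≤ C := fun t => by
    obtain ⟨h1, h2⟩ := hD.ro E (D.fl E t g) hE
    have h3 : 0 < 1 / C := by positivity
    rw [abs_le]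
    constructor <;> linarith
  have hQ := fun t => hD.ka E (D.fl E t g) hE
  have hx : ∀ t, g * (g⁻¹ * D.fl E t g) = D.fl E t g := fun t => mul_inv_cancel_left _ _
  have hLP : ∀ t, |rho D.U E (D.fl E t g) - rho D.U E g| ≤ C * nm (g⁻¹ * D.fl E t g) := by
    intro t
    have h := hD.lr E E g (g⁻¹ * D.fl E t g) hE hE
    rwa [hx, sub_self, abs_zero, add_zero] at h
  have hLQ : ∀ t, |kap D.U E (D.fl E t g) - kap D.U E g| ≤ C * nm (g⁻¹ * D.fl E t g) := by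
    intro t
    have h := hD.lk E E g (g⁻¹ * D.fl E t g) hE hE
    rwa [hx, sub_self, abs_zero, add_zero] at h
  have hs' : |s| ≤ 1 / (2 * C) := by
    refine hs.trans ?_
    refine one_div_le_one_div_of_le (by positivity) ?_
    nlinarith
  have key : (|(g⁻¹ * D.fl E s g).1 0 0 - 1| ≤ 2 * C * |s| ∧ |(g⁻¹ * D.fl E s g).1 0 1| ≤ 2 * C * |s| ∧
      |(g⁻¹ * D.fl E s g).1 1 0| ≤ 2 * C * |s| ∧ |(g⁻¹ * D.fl E s g).1 1 1 - 1| ≤ 2 * C * |s|) ∧
      |(g⁻¹ * D.fl E s g).1 0 0 - 1 - rho D.U E g / 2 * s| ≤ 3 * C ^ 2 * s ^ 2 ∧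
      |(g⁻¹ * D.fl E s g).1 1 1 - 1 + rho D.U E g / 2 * s| ≤ 3 * C ^ 2 * s ^ 2 ∧
      |(g⁻¹ * D.fl E s g).1 0 1 - kap D.U E g / 2 * s| ≤ 3 * C ^ 2 * s ^ 2 ∧
      |(g⁻¹ * D.fl E s g).1 1 0 + kap D.U E g / 2 * s| ≤ 3 * C ^ 2 * s ^ 2 := by
    rcases le_total 0 s with h | h
    · rw [abs_of_nonneg h] at hs' ⊢
      have k := SN4_core C 1 (rho D.U E g) (kap D.U E g) (fun s => (g⁻¹ * D.fl E s g).1 0 0) (fun s => (g⁻¹ * D.fl E s g).1 0 1)
        (fun s => (g⁻¹ * D.fl E s g).1 1 0) (fun s => (g⁻¹ * D.fl E s g).1 1 1)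
        (fun s => rho D.U E (D.fl E s g)) (fun s => kap D.U E (D.fl E s g)) hC abs_one hP hQ hLP hLQ
        (fun t => (SN4_d hD hE g 0 t).1.congr_deriv (one_mul _).symm)
        (fun t => (SN4_d hD hE g 0 t).2.congr_deriv (one_mul _).symm)
        (fun t => (SN4_d hD hE g 1 t).1.congr_deriv (one_mul _).symm)
        (fun t => (SN4_d hD hE g 1 t).2.congr_deriv (one_mul _).symm)
        (by simp [h0]) (by simp [h0]) (by simp [h0]) (by simp [h0]) s h hs'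
      simp only [one_mul] at k
      exact k
    · rw [abs_of_nonpos h] at hs' ⊢
      have k := SN4_core C (-1) (rho D.U E g) (kap D.U E g) (fun s => (g⁻¹ * D.fl E (-s) g).1 0 0) (fun s => (g⁻¹ * D.fl E (-s) g).1 0 1)
        (fun s => (g⁻¹ * D.fl E (-s) g).1 1 0) (fun s => (g⁻¹ * D.fl E (-s) g).1 1 1)
        (fun s => rho D.U E (D.fl E (-s) g)) (fun s => kap D.U E (D.fl E (-s) g)) hC
        (by rw [abs_neg, abs_one]) (fun t => hP (-t)) (fun t => hQ (-t)) (fun t => hLP (-t)) (fun t => hLQ (-t))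
        (fun t => SN4_neg (SN4_d hD hE g 0 (-t)).1) (fun t => SN4_neg (SN4_d hD hE g 0 (-t)).2)
        (fun t => SN4_neg (SN4_d hD hE g 1 (-t)).1) (fun t => SN4_neg (SN4_d hD hE g 1 (-t)).2)
        (by simp [h0]) (by simp [h0]) (by simp [h0]) (by simp [h0]) (-s) (by linarith) hs'
      simp only [neg_neg, neg_sq] at k
      have e1 : ∀ r : ℝ, -1 * r * -s = r * s := fun r => by ring
      rw [e1, e1] at k
      exact k
  rw [hθ]
  obtain ⟨⟨k1, k2, k3, k4⟩, k5, k6, k7, k8⟩ := key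
  have hK : 3 * C ^ 2 * s ^ 2 ≤ (1 + 3 * C ^ 2) * s ^ 2 :=
    mul_le_mul_of_nonneg_right (by linarith) (sq_nonneg s)
  have hK1 : 2 * C * |s| ≤ (1 + 3 * C ^ 2) * |s| := by
    refine mul_le_mul_of_nonneg_right ?_ (abs_nonneg s)
    nlinarith
  have e2 : ∀ r : ℝ, r * s / 2 = r / 2 * s := fun r => by ring
  rw [e2, e2]
  exact ⟨(max_le (max_le k1 k2) (max_le k3 k4)).trans hK1, k5.trans hK, k6.trans hK, k7.trans hK, k8.trans hK⟩

end Pool.Agent.VN
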